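import Pool.Agent.Q253.TwoRank.Upper

/-!
Lower bound: random vectors of the symplectic space.
-/

open Finset Module

set_option autoImplicit false
set_option linter.unusedSectionVars false
set_option linter.unusedVariables false

namespace Pool.Agent.Q253.TwoRank

open Classical

/-- the symplectic space of dimension `2 m` -/
abbrev Sp (m : ℕ) : Type := (Fin m → ZMod 2) × (Fin m → ZMod 2)

/-- the symplectic form -/
def om (m : ℕ) : LinearMap.BilinForm (ZMod 2) (Sp m) :=
  LinearMap.mk₂ (ZMod 2) (fun p q => p.1 ⬝ᵥ q.2 + p.2 ⬝ᵥ q.1)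
    (fun p p' q => by simp only [Prod.fst_add, Prod.snd_add, add_dotProduct]; ring)
    (fun c p q => by
      simp only [Prod.smul_fst, Prod.smul_snd, smul_dotProduct, smul_eq_mul]; ring)
    (fun p q q' => by simp only [Prod.fst_add, Prod.snd_add, dotProduct_add]; ring)
    (fun c p q => by
      simp only [Prod.smul_fst, Prod.smul_snd, dotProduct_smul, smul_eq_mul]; ring)

theorem om_apply (m : ℕ) (p q : Sp m) : om m p q = p.1 ⬝ᵥ q.2 + p.2 ⬝ᵥ q.1 := rfl

theorem om_alt (m : ℕ) : (om m).IsAlt := by
  intro p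
  rw [om_apply, dotProduct_comm p.2 p.1]
  have h : ∀ a : ZMod 2, a + a = 0 := by decide
  exact h _

theorem om_rad (m : ℕ) : (om m).orthogonal ⊤ = ⊥ := by
  rw [eq_bot_iff]
  intro z hz
  rw [mem_orth] at hz
  rw [Submodule.mem_bot]
  refine Prod.ext (funext fun i => ?_) (funext fun i => ?_)
  · have := hz (0, Pi.single i 1) Submodule.mem_top
    rw [om_apply] at this
    simpa using this
  · have := hz (Pi.single i 1, 0) Submodule.mem_top
    rw [om_apply] at this
    simpa using this

theorem card_Sp (m : ℕ) : Fintype.card (Sp m) = 2 ^ (2 * m) := by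
  rw [Fintype.card_prod, Fintype.card_pi]
  simp [ZMod.card]
  ring

theorem card_orth_tuples (m l : ℕ) :
    (univ.filter fun w : Fin l → Sp m => ∀ a b, om m (w a) (w b) = 0).card ≤ (2 ^ m) ^ l * gg m := by
  have hI := iso_rad (om_alt m)
  have hg := gap_rad (om_alt m)
  have hb : brank (om m) = 2 * m := by
    unfold brank
    rw [om_rad, finrank_bot, Module.finrank_prod, Module.finrank_pi]
    simp
    ring
  rw [hb] at hg
  have h := card_tup (om_alt m) l m _ hI hg
  have h0 : finrank (ZMod 2) ((om m).orthogonal ⊤) = 0 := by rw [om_rad, finrank_bot]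
  rw [h0, zero_add] at h
  refine le_trans (card_le_card ?_) h
  intro w hw
  simp only [mem_filter, mem_univ, true_and] at hw
  simp only [tup, mem_filter, mem_univ, true_and]
  refine ⟨fun a => ?_, hw⟩
  rw [om_rad, mem_orth]
  intro u hu
  rw [Submodule.mem_bot] at hu
  rw [hu, map_zero, LinearMap.zero_apply]

/-! ### cliques -/

variable {E : Type*} [AddCommGroup E] [Module (ZMod 2) E] [Fintype E]
variable {B : LinearMap.BilinForm (ZMod 2) E}

/-- tuples with all products one -/
noncomputable def cl (B : LinearMap.BilinForm (ZMod 2) E) (l : ℕ) : Finset (Fin l → E) :=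
  univ.filter fun w => ∀ a b, a ≠ b → B (w a) (w b) = 1

theorem cl_succ (hB : B.IsAlt) (p : ℕ) :
    (cl B (p + 2)).card * 2 ^ p ≤ (cl B (p + 1)).card * Fintype.card E := by
  have h1 : Fintype.card (Fin p → ZMod 2) = 2 ^ p := by
    rw [Fintype.card_pi]
    simp [ZMod.card]
  have h2 : (cl B (p + 2)).card * 2 ^ p = (cl B (p + 2) ×ˢ (univ : Finset (Fin p → ZMod 2))).card := by
    rw [card_product, card_univ, h1]
  have h3 : (cl B (p + 1)).card * Fintype.card E = (cl B (p + 1) ×ˢ (univ : Finset E)).card := by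
    rw [card_product, card_univ]
  rw [h2, h3]
  let t : (Fin (p + 2) → E) → Fin p → E := fun w b =>
    w b.castSucc.castSucc + w (Fin.last p).castSucc
  have ht : ∀ w ∈ cl B (p + 2), ∀ a b : Fin p, B (t w b) (w a.castSucc.castSucc) =
      if b = a then 1 else 0 := by
    intro w hw a b
    simp only [cl, mem_filter, mem_univ, true_and] at hw
    have hl : B (w (Fin.last p).castSucc) (w a.castSucc.castSucc) = 1 := by
      apply hw
      intro h
      have := congrArg Fin.val h
      simp at this
      omega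
    show B (w b.castSucc.castSucc + w (Fin.last p).castSucc) _ = _
    rw [LinearMap.BilinForm.add_left, hl]
    split_ifs with hab
    · subst hab
      rw [hB, zero_add]
    · rw [hw]
      · rfl
      · intro h
        apply hab
        apply Fin.ext
        have := congrArg Fin.val h
        simpa using this
  refine card_le_card_of_injOn
    (fun q => (Fin.init q.1, q.1 (Fin.last (p + 1)) + ∑ b, q.2 b • t q.1 b)) ?_ ?_
  · intro q hq
    have hq1 : q.1 ∈ cl B (p + 2) := (mem_product.1 hq).1
    refine mem_product.2 ⟨?_, mem_univ _⟩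
    simp only [cl, mem_filter, mem_univ, true_and] at hq1 ⊢
    intro a b hab
    apply hq1
    intro h
    exact hab (Fin.castSucc_injective _ h)
  · rintro ⟨w, c⟩ hq ⟨w', c'⟩ hq' heq
    have hq1 : w ∈ cl B (p + 2) := (mem_product.1 hq).1
    have hq1' : w' ∈ cl B (p + 2) := (mem_product.1 hq').1
    simp only [Prod.mk.injEq] at heq
    obtain ⟨e1, e2⟩ := heq
    have e3 : ∀ i : Fin (p + 1), w i.castSucc = w' i.castSucc := fun i => congrFun e1 i
    have e4 : t w = t w' := by
      funext b
      show w b.castSucc.castSucc + w (Fin.last p).castSucc =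
        w' b.castSucc.castSucc + w' (Fin.last p).castSucc
      rw [e3, e3]
    have key : ∀ (w : Fin (p + 2) → E) (c : Fin p → ZMod 2), w ∈ cl B (p + 2) → ∀ a : Fin p,
        B (w (Fin.last (p + 1)) + ∑ b, c b • t w b) (w a.castSucc.castSucc) = 1 + c a := by
      intro w c hw a
      rw [LinearMap.BilinForm.add_left]
      congr 1
      · simp only [cl, mem_filter, mem_univ, true_and] at hw
        apply hw
        intro h
        have := congrArg Fin.val h
        simp at this
        omega
      · rw [map_sum, LinearMap.sum_apply]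
        have : ∀ b : Fin p, (B (c b • t w b)) (w a.castSucc.castSucc) =
            if b = a then c b else 0 := by
          intro b
          rw [map_smul, LinearMap.smul_apply, ht w hw a b]
          split_ifs <;> simp
        rw [sum_congr rfl fun b _ => this b]
        simp
    have e5 : c = c' := by
      funext a
      have h4 := key w c hq1 a
      have h5 := key w' c' hq1' a
      rw [e2, e3] at h4
      rw [h4] at h5
      exact add_left_cancel h5
    subst e5
    have e6 : w (Fin.last (p + 1)) = w' (Fin.last (p + 1)) := by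
      rw [e4] at e2
      exact add_right_cancel e2
    have e7 : w = w' := by
      funext i
      exact Fin.lastCases e6 e3 i
    rw [e7]

theorem card_cl (hB : B.IsAlt) (p : ℕ) :
    (cl B (p + 1)).card * 2 ^ (p.choose 2) ≤ Fintype.card E ^ (p + 1) := by
  induction p with
  | zero =>
    rw [Nat.choose_eq_zero_of_lt (by norm_num), pow_zero, mul_one]
    refine (card_le_univ _).trans ?_
    rw [Fintype.card_pi]
    simp
  | succ p ih =>
    have h := cl_succ hB p
    have e : (p + 1).choose 2 = p + p.choose 2 := by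
      rw [Nat.choose_succ_succ' p 1, Nat.choose_one_right]
    rw [e, pow_add, ← mul_assoc]
    calc (cl B (p + 1 + 1)).card * 2 ^ p * 2 ^ p.choose 2
        ≤ (cl B (p + 1)).card * Fintype.card E * 2 ^ p.choose 2 := Nat.mul_le_mul_right _ h
      _ = (cl B (p + 1)).card * 2 ^ p.choose 2 * Fintype.card E := by ring
      _ ≤ Fintype.card E ^ (p + 1) * Fintype.card E := Nat.mul_le_mul_right _ ih
      _ = Fintype.card E ^ (p + 1 + 1) := (pow_succ _ _).symm

/-! ### the union bound -/

theorem card_restrict {X : Type*} [Fintype X] {n k : ℕ} (e : Fin k → Fin n)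
    (he : Function.Injective e) (P : (Fin k → X) → Prop) [DecidablePred P]
    [DecidablePred fun x : Fin n → X => P (x ∘ e)] :
    (univ.filter fun x : Fin n → X => P (x ∘ e)).card * Fintype.card X ^ k ≤
      (univ.filter fun y => P y).card * Fintype.card X ^ n := by
  have h1 : (univ.filter fun x : Fin n → X => P (x ∘ e)).card * Fintype.card X ^ k =
      ((univ.filter fun x : Fin n → X => P (x ∘ e)) ×ˢ (univ : Finset (Fin k → X))).card := by
    rw [card_product, card_univ, Fintype.card_pi]
    simp
  have h2 : (univ.filter fun y : Fin k → X => P y).card * Fintype.card X ^ n =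
      ((univ.filter fun y => P y) ×ˢ (univ : Finset (Fin n → X))).card := by
    rw [card_product, card_univ, Fintype.card_pi]
    simp
  rw [h1, h2]
  refine card_le_card_of_injOn (fun q => (q.1 ∘ e, Function.extend e q.2 q.1)) ?_ ?_
  · intro q hq
    have := (mem_product.1 hq).1
    simp only [mem_filter, mem_univ, true_and] at this
    exact mem_product.2 ⟨mem_filter.2 ⟨mem_univ _, this⟩, mem_univ _⟩
  · rintro ⟨x, y⟩ _ ⟨x', y'⟩ _ h
    simp only [Prod.mk.injEq] at h
    obtain ⟨h1, h2⟩ := h
    have h3 : y = y' := by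
      have := congrArg (fun f => f ∘ e) h2
      simpa [Function.extend_comp he] using this
    have h4 : x = x' := by
      funext i
      by_cases hi : ∃ a, e a = i
      · obtain ⟨a, rfl⟩ := hi
        exact congrFun h1 a
      · have := congrFun h2 i
        rwa [Function.extend_apply' _ _ _ hi, Function.extend_apply' _ _ _ hi] at this
    rw [h3, h4]

/-- a family of `n` vectors without `k` pairwise orthogonal ones and without `k` with all products
one -/
theorem exists_family (hB : B.IsAlt) {n k N0 : ℕ}
    (h0 : (univ.filter fun w : Fin k → E => ∀ a b, B (w a) (w b) = 0).card ≤ N0)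
    (hnum : n.choose k * (N0 + (cl B k).card) < Fintype.card E ^ k) :
    ∃ x : Fin n → E, ∀ S : Finset (Fin n), S.card = k →
      (∃ u ∈ S, ∃ v ∈ S, u ≠ v ∧ B (x u) (x v) ≠ 0) ∧
      (∃ u ∈ S, ∃ v ∈ S, u ≠ v ∧ B (x u) (x v) ≠ 1) := by
  by_contra hcon
  push Not at hcon
  set bad : Finset (Fin n) → Finset (Fin n → E) := fun S => univ.filter fun x =>
    (∀ u ∈ S, ∀ v ∈ S, u ≠ v → B (x u) (x v) = 0) ∨
    (∀ u ∈ S, ∀ v ∈ S, u ≠ v → B (x u) (x v) = 1) with hbad
  have hcov : (univ : Finset (Fin n → E)) ⊆ (powersetCard k univ).biUnion bad := by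
    intro x _
    obtain ⟨S, hS, h⟩ := hcon x
    rw [mem_biUnion]
    refine ⟨S, mem_powersetCard.2 ⟨subset_univ _, hS⟩, ?_⟩
    simp only [hbad, mem_filter, mem_univ, true_and]
    by_cases h2 : ∃ u ∈ S, ∃ v ∈ S, u ≠ v ∧ B (x u) (x v) ≠ 0
    · right
      exact h h2
    · left
      push Not at h2
      exact h2
  have hb : ∀ S ∈ powersetCard k (univ : Finset (Fin n)),
      (bad S).card * Fintype.card E ^ k ≤ (N0 + (cl B k).card) * Fintype.card E ^ n := by
    intro S hS
    have hS' : S.card = k := (mem_powersetCard.1 hS).2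
    set e : Fin k → Fin n := fun i => S.orderEmbOfFin hS' i with he
    have hinj : Function.Injective e := (S.orderEmbOfFin hS').injective
    have hmem : ∀ i, e i ∈ S := fun i => S.orderEmbOfFin_mem hS' i
    have r0 := card_restrict (X := E) e hinj fun w => ∀ a b, B (w a) (w b) = 0
    have r1 : (univ.filter fun x : Fin n → E =>
        ∀ a b, a ≠ b → B ((x ∘ e) a) ((x ∘ e) b) = 1).card * Fintype.card E ^ k ≤
          (cl B k).card * Fintype.card E ^ n :=
      card_restrict (X := E) e hinj fun w => ∀ a b, a ≠ b → B (w a) (w b) = 1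
    have hsub : bad S ⊆ (univ.filter fun x : Fin n → E => ∀ a b, B ((x ∘ e) a) ((x ∘ e) b) = 0) ∪
        (univ.filter fun x : Fin n → E => ∀ a b, a ≠ b → B ((x ∘ e) a) ((x ∘ e) b) = 1) := by
      intro x hx
      simp only [hbad, mem_filter, mem_univ, true_and] at hx
      simp only [mem_union, mem_filter, mem_univ, true_and]
      rcases hx with h | h
      · left
        intro a b
        rcases eq_or_ne a b with rfl | hab
        · exact hB _
        · exact h _ (hmem a) _ (hmem b) fun h' => hab (hinj h')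
      · right
        intro a b hab
        exact h _ (hmem a) _ (hmem b) fun h' => hab (hinj h')
    have hc := (card_le_card hsub).trans (card_union_le _ _)
    calc (bad S).card * Fintype.card E ^ k
        ≤ ((univ.filter fun x : Fin n → E => ∀ a b, B ((x ∘ e) a) ((x ∘ e) b) = 0).card +
          (univ.filter fun x : Fin n → E =>
            ∀ a b, a ≠ b → B ((x ∘ e) a) ((x ∘ e) b) = 1).card) * Fintype.card E ^ k :=
          Nat.mul_le_mul_right _ hc
      _ = _ + _ := add_mul _ _ _
      _ ≤ _ + _ := add_le_add r0 r1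
      _ ≤ N0 * Fintype.card E ^ n + (cl B k).card * Fintype.card E ^ n :=
          add_le_add (Nat.mul_le_mul_right _ h0) (le_refl _)
      _ = _ := (add_mul _ _ _).symm
  have h1 : Fintype.card E ^ n ≤ ∑ S ∈ powersetCard k (univ : Finset (Fin n)), (bad S).card := by
    have h2 := (card_le_card hcov).trans card_biUnion_le
    rw [card_univ, Fintype.card_pi] at h2
    simpa using h2
  have h3 : Fintype.card E ^ n * Fintype.card E ^ k ≤
      (n.choose k * (N0 + (cl B k).card)) * Fintype.card E ^ n := by
    calc Fintype.card E ^ n * Fintype.card E ^ k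
        ≤ (∑ S ∈ powersetCard k (univ : Finset (Fin n)), (bad S).card) * Fintype.card E ^ k :=
          Nat.mul_le_mul_right _ h1
      _ = ∑ S ∈ powersetCard k (univ : Finset (Fin n)), (bad S).card * Fintype.card E ^ k :=
          sum_mul _ _ _
      _ ≤ ∑ S ∈ powersetCard k (univ : Finset (Fin n)),
          (N0 + (cl B k).card) * Fintype.card E ^ n := sum_le_sum hb
      _ = _ := by
          rw [sum_const, card_powersetCard, card_univ, Fintype.card_fin, smul_eq_mul]
          ring
  have hpos : 0 < Fintype.card E ^ n := by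
    have : 0 < Fintype.card E := Fintype.card_pos_iff.2 ⟨0⟩
    positivity
  rw [mul_comm] at h3
  have := Nat.le_of_mul_le_mul_right h3 hpos
  omega

theorem gg_sq (m : ℕ) : gg m * gg m ≤ 2 ^ (m * (m + 3)) := by
  induction m with
  | zero => exact le_refl _
  | succ m ih =>
    have h1 : 2 ^ (m + 1) + 1 ≤ 2 ^ (m + 2) := by
      have := Nat.one_le_two_pow (n := m + 1)
      rw [pow_succ 2 (m + 1)]
      omega
    calc gg (m + 1) * gg (m + 1) = (2 ^ (m + 1) + 1) * (2 ^ (m + 1) + 1) * (gg m * gg m) := by
          show (2 ^ (m + 1) + 1) * gg m * ((2 ^ (m + 1) + 1) * gg m) = _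
          ring
      _ ≤ 2 ^ (m + 2) * 2 ^ (m + 2) * 2 ^ (m * (m + 3)) := by gcongr
      _ = 2 ^ ((m + 1) * (m + 1 + 3)) := by
          rw [← pow_add, ← pow_add]
          congr 1
          ring

/-- the symplectic colourings -/
theorem exists_colouring (m k t : ℕ) (hk : 3 ≤ k) (h1 : 2 * t * k + m * (m + 3) ≤ 2 * m * k)
    (h2 : 2 * (t * k) ≤ (k - 1) * (k - 2)) :
    ∃ x : Fin (2 ^ t) → Sp m, ∀ S : Finset (Fin (2 ^ t)), S.card = k →
      (∃ u ∈ S, ∃ v ∈ S, u ≠ v ∧ om m (x u) (x v) ≠ 0) ∧
      (∃ u ∈ S, ∃ v ∈ S, u ≠ v ∧ om m (x u) (x v) ≠ 1) := by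
  refine exists_family (om_alt m) (card_orth_tuples m k) ?_
  rw [card_Sp]
  set n := 2 ^ t with hn
  set N0 := (2 ^ m) ^ k * gg m with hN0
  set N1 := (cl (om m) k).card with hN1
  set Q := (2 ^ (2 * m)) ^ k with hQ
  have a0 : n ^ k * N0 ≤ Q := by
    have h : (n ^ k * N0) ^ 2 ≤ Q ^ 2 := by
      calc (n ^ k * N0) ^ 2 = (2 ^ (t * k) * 2 ^ (m * k)) ^ 2 * (gg m * gg m) := by
            rw [hn, hN0, pow_mul, pow_mul]; ring
        _ ≤ (2 ^ (t * k) * 2 ^ (m * k)) ^ 2 * 2 ^ (m * (m + 3)) :=
            Nat.mul_le_mul_left _ (gg_sq m)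
        _ = 2 ^ (2 * t * k + 2 * m * k + m * (m + 3)) := by
            rw [← pow_add, ← pow_mul, ← pow_add]
            congr 1
            ring
        _ ≤ 2 ^ (2 * m * k * 2) := Nat.pow_le_pow_right (by norm_num) (by omega)
        _ = Q ^ 2 := by rw [hQ, ← pow_mul, ← pow_mul]; congr 1; ring
    exact (Nat.pow_le_pow_iff_left (by norm_num)).1 h
  have a1 : n ^ k * N1 ≤ Q := by
    obtain ⟨p, rfl⟩ : ∃ p, k = p + 1 := ⟨k - 1, by omega⟩
    have h := card_cl (om_alt m) p
    rw [card_Sp] at h
    have h3 : t * (p + 1) ≤ p.choose 2 := by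
      rw [Nat.choose_two_right, Nat.le_div_iff_mul_le (by norm_num)]
      have e : (p + 1 - 1) * (p + 1 - 2) = p * (p - 1) := by
        congr 1
      rw [e] at h2
      linarith
    calc n ^ (p + 1) * N1 = N1 * 2 ^ (t * (p + 1)) := by rw [hn, ← pow_mul]; ring
      _ ≤ N1 * 2 ^ (p.choose 2) :=
          Nat.mul_le_mul_left _ (Nat.pow_le_pow_right (by norm_num) h3)
      _ ≤ Q := h
  have a2 : n.choose k * k.factorial ≤ n ^ k := by
    rw [mul_comm, ← Nat.descFactorial_eq_factorial_mul_choose]
    exact Nat.descFactorial_le_pow n k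
  have a3 : 6 ≤ k.factorial := by
    calc 6 = Nat.factorial 3 := rfl
      _ ≤ k.factorial := Nat.factorial_le hk
  have hQ0 : 0 < Q := by positivity
  have a4 : k.factorial * (n.choose k * (N0 + N1)) ≤ 2 * Q := by
    calc k.factorial * (n.choose k * (N0 + N1)) = n.choose k * k.factorial * (N0 + N1) := by ring
      _ ≤ n ^ k * (N0 + N1) := Nat.mul_le_mul_right _ a2
      _ = n ^ k * N0 + n ^ k * N1 := by ring
      _ ≤ 2 * Q := by omega
  have a5 : 6 * (n.choose k * (N0 + N1)) ≤ 2 * Q :=
    (Nat.mul_le_mul_right _ a3).trans a4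
  omega

end Pool.Agent.Q253.TwoRank
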