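import Pool.Agent.Q253.TwoRank.Sym

/-!
Averaging: a family of vectors has a large part which is pairwise orthogonal. Counting: the number
of pairwise orthogonal tuples.
-/

open Finset Module

set_option autoImplicit false
set_option linter.unusedSectionVars false
set_option linter.unusedVariables false

namespace Pool.Agent.Q253.TwoRank

open Classical

variable {E : Type*} [AddCommGroup E] [Module (ZMod 2) E] [Fintype E]
variable {B : LinearMap.BilinForm (ZMod 2) E}
variable {V : Type*} [Fintype V]

/-- the weight of a vector with respect to `U` -/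
noncomputable def wt (B : LinearMap.BilinForm (ZMod 2) E) (U : Submodule (ZMod 2) E) (j : ℕ)
    (z : E) : ℕ :=
  if z ∈ U then 2 ^ j + 1 else if z ∈ B.orthogonal U then 1 else 0

theorem sum_outer (hB : B.IsAlt) {U : Submodule (ZMod 2) E} (hU : Iso B U) {j : ℕ}
    (hd : Gap B U (2 * j + 2)) (z : E) :
    (outer B U).card * (2 ^ j + 1) * wt B U (j + 1) z ≤
      (2 ^ (j + 1) + 1) * ∑ y ∈ outer B U, wt B (U ⊔ Submodule.span (ZMod 2) {y}) j z := by
  by_cases hz : z ∈ U
  · have h1 : ∀ y ∈ outer B U, wt B (U ⊔ Submodule.span (ZMod 2) {y}) j z = 2 ^ j + 1 := by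
      intro y _
      unfold wt
      rw [if_pos (Submodule.mem_sup_left hz)]
    rw [sum_congr rfl h1, sum_const, smul_eq_mul]
    unfold wt
    rw [if_pos hz]
    exact le_of_eq (by ring)
  by_cases hz' : z ∈ B.orthogonal U
  · have hzo : z ∈ outer B U := by
      simp only [outer, mem_filter, mem_univ, true_and]
      exact ⟨hz', hz⟩
    have h1 : ∀ y ∈ outer B U, wt B (U ⊔ Submodule.span (ZMod 2) {y}) j z =
        (if z ∈ U ⊔ Submodule.span (ZMod 2) {y} then 2 ^ j + 1 else 0) +
        (if z ∈ outer B (U ⊔ Submodule.span (ZMod 2) {y}) then 1 else 0) := by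
      intro y _
      unfold wt
      by_cases h : z ∈ U ⊔ Submodule.span (ZMod 2) {y}
      · rw [if_pos h, if_pos h, if_neg]
        simp only [outer, mem_filter, mem_univ, true_and]
        exact fun h' => h'.2 h
      · rw [if_neg h, if_neg h, zero_add]
        simp only [outer, mem_filter, mem_univ, true_and, h, not_false_eq_true, and_true]
    rw [sum_congr rfl h1, sum_add_distrib, ← sum_filter, ← sum_filter, sum_const, sum_const,
      card_same hU hzo, smul_eq_mul, smul_eq_mul, mul_one]
    have h2 := card_next hB hU hzo (d := 2 * j + 1) hd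
    have h3 := card_outer hU hd
    unfold wt
    rw [if_neg hz, if_pos hz', mul_one]
    set N := (outer B U).card
    set M := ((outer B U).filter fun y => z ∈ outer B (U ⊔ Submodule.span (ZMod 2) {y})).card
    set u := 2 ^ finrank (ZMod 2) U
    obtain ⟨p, hp⟩ : ∃ p, p = 2 ^ j := ⟨_, rfl⟩
    have e1 : 2 ^ (2 * j + 1) = 2 * (p * p) := by
      rw [hp, ← pow_add, pow_succ]; ring
    have e2 : 2 ^ (2 * j + 2) = 4 * (p * p) := by
      rw [hp, ← pow_add, pow_add]; ring
    have e3 : 2 ^ (j + 1) = 2 * p := by rw [hp, pow_succ]; ring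
    rw [e1] at h2
    rw [e2] at h3
    rw [e3, ← hp]
    have hp1 : 1 ≤ p := hp ▸ Nat.one_le_two_pow
    zify at h2 h3 ⊢
    have hM : (M : ℤ) = u * (2 * (p * p)) - 2 * u := by linarith
    have hN : (N : ℤ) = u * (4 * (p * p)) - u := by linarith
    rw [hM, hN]
    apply le_of_eq
    ring
  · unfold wt
    rw [if_neg hz, if_neg hz']
    simp

theorem avg_step (hB : B.IsAlt) {U : Submodule (ZMod 2) E} (hU : Iso B U) {j : ℕ}
    (hd : Gap B U (2 * j + 2)) (x : V → E) :
    ∃ y ∈ outer B U, (2 ^ j + 1) * ∑ v, wt B U (j + 1) (x v) ≤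
      (2 ^ (j + 1) + 1) * ∑ v, wt B (U ⊔ Submodule.span (ZMod 2) {y}) j (x v) := by
  have hne : (outer B U).Nonempty := by
    rw [← card_pos]
    have h := card_outer hU hd
    have h1 : 2 ^ finrank (ZMod 2) U * 1 < 2 ^ finrank (ZMod 2) U * 2 ^ (2 * j + 2) :=
      Nat.mul_lt_mul_of_pos_left (Nat.one_lt_two_pow (by omega)) (by positivity)
    omega
  by_contra hcon
  push Not at hcon
  have h1 := sum_lt_sum_of_nonempty hne hcon
  rw [sum_const, smul_eq_mul, ← mul_sum, sum_comm] at h1
  have h2 : (outer B U).card * ((2 ^ j + 1) * ∑ v, wt B U (j + 1) (x v)) ≤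
      (2 ^ (j + 1) + 1) *
        ∑ v, ∑ y ∈ outer B U, wt B (U ⊔ Submodule.span (ZMod 2) {y}) j (x v) := by
    rw [← mul_assoc, mul_sum, mul_sum]
    exact sum_le_sum fun v _ => sum_outer hB hU hd (x v)
  omega

theorem avg (hB : B.IsAlt) (x : V → E) : ∀ (d : ℕ) (U : Submodule (ZMod 2) E), Iso B U →
    Gap B U d → Even d ∧ ∃ T : Finset V, (∀ a ∈ T, ∀ b ∈ T, B (x a) (x b) = 0) ∧
      ∑ v, wt B U (d / 2) (x v) ≤ (2 ^ (d / 2) + 1) * T.card := by
  intro d
  induction d using Nat.strong_induction_on with
  | _ d ih =>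
    intro U hU hd
    rcases Nat.lt_or_ge d 1 with h0 | h1
    · obtain rfl : d = 0 := by omega
      refine ⟨by simp, univ.filter fun v => x v ∈ U, ?_, ?_⟩
      · intro a ha b hb
        simp only [mem_filter, mem_univ, true_and] at ha hb
        exact hU.iso hb _ ha
      · have hUU : U = B.orthogonal U := by
          refine Submodule.eq_of_le_of_finrank_le hU.iso ?_
          unfold Gap at hd
          omega
        have h : ∀ v, wt B U (0 / 2) (x v) = if x v ∈ U then 2 ^ (0 / 2) + 1 else 0 := by
          intro v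
          unfold wt
          rw [← hUU]
          split_ifs <;> rfl
        rw [sum_congr rfl fun v _ => h v, ← sum_filter, sum_const, smul_eq_mul, mul_comm]
    · have hne : ∃ y, y ∈ B.orthogonal U ∧ y ∉ U := by
        by_contra hcon
        push Not at hcon
        have h2 : B.orthogonal U ≤ U := hcon
        have h3 := Submodule.finrank_mono h2
        unfold Gap at hd
        omega
      obtain ⟨y0, hy0, hy0'⟩ := hne
      obtain ⟨e, he, hg⟩ := Gap.ext hB hU hd hy0 hy0'
      subst he
      have hI := ext_iso hB hU hy0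
      have hev : Even e := (ih e (by omega) _ hI hg).1
      obtain ⟨j, hj⟩ := hev
      have hj' : e = 2 * j := by omega
      subst hj'
      refine ⟨⟨j + 1, by ring⟩, ?_⟩
      obtain ⟨y, hy, hle⟩ := avg_step hB hU hd x
      simp only [outer, mem_filter, mem_univ, true_and] at hy
      obtain ⟨e', he', hg'⟩ := Gap.ext hB hU hd hy.1 hy.2
      obtain rfl : e' = 2 * j := by omega
      obtain ⟨-, T, hT, hc⟩ := ih (2 * j) (by omega) _ (ext_iso hB hU hy.1) hg'
      refine ⟨T, hT, ?_⟩
      have e1 : (2 * j + 2) / 2 = j + 1 := by omega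
      have e2 : 2 * j / 2 = j := by omega
      rw [e1]
      rw [e2] at hc
      have h4 : (2 ^ j + 1) * ∑ v, wt B U (j + 1) (x v) ≤
          (2 ^ j + 1) * ((2 ^ (j + 1) + 1) * T.card) := by
        refine hle.trans ?_
        calc (2 ^ (j + 1) + 1) * ∑ v, wt B (U ⊔ Submodule.span (ZMod 2) {y}) j (x v)
            ≤ (2 ^ (j + 1) + 1) * ((2 ^ j + 1) * T.card) := Nat.mul_le_mul_left _ hc
          _ = (2 ^ j + 1) * ((2 ^ (j + 1) + 1) * T.card) := by ring
      exact Nat.le_of_mul_le_mul_left h4 (by positivity)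

theorem iso_rad (hB : B.IsAlt) : Iso B (B.orthogonal ⊤) := by
  refine ⟨le_refl _, ?_⟩
  intro z hz w _
  exact hz w Submodule.mem_top

/-- the rank of the form -/
noncomputable def brank (B : LinearMap.BilinForm (ZMod 2) E) : ℕ :=
  finrank (ZMod 2) E - finrank (ZMod 2) (B.orthogonal ⊤)

theorem gap_rad (hB : B.IsAlt) : Gap B (B.orthogonal ⊤) (brank B) := by
  have h1 := dims hB (iso_rad hB)
  have h2 := Submodule.finrank_le (B.orthogonal ⊤)
  have h3 : B.orthogonal (B.orthogonal ⊤) = ⊤ := by
    rw [eq_top_iff]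
    intro z _
    rw [mem_orth]
    intro w hw
    have := hw z Submodule.mem_top
    rw [symm_of_alt hB]
    exact this
  unfold Gap brank
  rw [h3, finrank_top]
  omega

/-- **Large orthogonal part.** -/
theorem large_part (hB : B.IsAlt) (x : V → E) : ∃ T : Finset V,
    (∀ a ∈ T, ∀ b ∈ T, B (x a) (x b) = 0) ∧
      Fintype.card V ≤ (2 ^ (brank B / 2) + 1) * T.card := by
  obtain ⟨-, T, hT, hc⟩ := avg hB x _ _ (iso_rad hB) (gap_rad hB)
  refine ⟨T, hT, le_trans ?_ hc⟩
  have h1 : ∀ v, 1 ≤ wt B (B.orthogonal ⊤) (brank B / 2) (x v) := by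
    intro v
    unfold wt
    split_ifs with h2 h3
    · exact Nat.le_add_left _ _
    · exact le_refl _
    · exfalso
      apply h3
      rw [mem_orth]
      intro w hw
      have := hw (x v) Submodule.mem_top
      rw [symm_of_alt hB]
      exact this
  calc Fintype.card V = ∑ _v : V, 1 := by simp
    _ ≤ _ := sum_le_sum fun v _ => h1 v

/-! ### Counting orthogonal tuples -/

/-- the number of maximal isotropic subspaces -/
def gg : ℕ → ℕ
  | 0 => 1
  | j + 1 => (2 ^ (j + 1) + 1) * gg j

/-- the pairwise orthogonal tuples in `U^⊥` -/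
noncomputable def tup (B : LinearMap.BilinForm (ZMod 2) E) (U : Submodule (ZMod 2) E) (l : ℕ) :
    Finset (Fin l → E) :=
  univ.filter fun w => (∀ a, w a ∈ B.orthogonal U) ∧ ∀ a b, B (w a) (w b) = 0

theorem card_tup_succ (hB : B.IsAlt) {U : Submodule (ZMod 2) E} (hU : Iso B U) (l : ℕ) :
    (tup B U (l + 1)).card ≤ ∑ y ∈ univ.filter (fun y => y ∈ B.orthogonal U),
      (tup B (U ⊔ Submodule.span (ZMod 2) {y}) l).card := by
  rw [← card_sigma]
  refine card_le_card_of_injOn (fun w => ⟨w 0, Fin.tail w⟩) ?_ ?_
  · intro w hw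
    simp only [tup, coe_filter, mem_univ, true_and, Set.mem_ofPred_eq] at hw
    simp only [coe_sigma, Set.mem_sigma_iff, coe_filter, mem_univ, true_and, Set.mem_ofPred_eq,
      tup]
    refine ⟨hw.1 0, ?_, ?_⟩
    · intro a
      rw [mem_orth]
      intro u hu
      rw [mem_sup_span] at hu
      have h1 := hw.1 a.succ
      rcases hu with hu | hu
      · exact h1 u hu
      · have h2 := h1 (u + w 0) hu
        have h3 := hw.2 0 a.succ
        rw [LinearMap.BilinForm.add_left, h3, add_zero] at h2
        exact h2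
    · intro a b
      exact hw.2 a.succ b.succ
  · intro w _ w' _ h
    simp only [Sigma.mk.injEq, heq_eq_eq] at h
    funext i
    refine Fin.cases h.1 (fun a => ?_) i
    exact congrFun h.2 a

theorem card_tup (hB : B.IsAlt) : ∀ (l j : ℕ) (U : Submodule (ZMod 2) E), Iso B U →
    Gap B U (2 * j) → (tup B U l).card ≤ (2 ^ (finrank (ZMod 2) U + j)) ^ l * gg j := by
  intro l
  induction l with
  | zero =>
    intro j U _ _
    have h1 : (tup B U 0).card ≤ 1 := by
      refine (card_le_univ _).trans ?_
      simp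
    have h2 : ∀ j, 1 ≤ gg j := by
      intro j
      induction j with
      | zero => exact le_refl _
      | succ j ih => exact Nat.mul_pos (by positivity) ih
    rw [pow_zero, one_mul]
    exact h1.trans (h2 j)
  | succ l ih =>
    intro j U hU hd
    refine (card_tup_succ hB hU l).trans ?_
    have hsplit : (univ.filter fun y => y ∈ B.orthogonal U) =
        (univ.filter fun y => y ∈ U) ∪ outer B U := by
      ext y
      simp only [outer, mem_filter, mem_univ, true_and, mem_union]
      constructor
      · intro h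
        by_cases hy : y ∈ U
        · exact Or.inl hy
        · exact Or.inr ⟨h, hy⟩
      · rintro (h | h)
        · exact hU.iso h
        · exact h.1
    have hdis : Disjoint (univ.filter fun y => y ∈ U) (outer B U) := by
      rw [disjoint_left]
      intro y hy hy'
      simp only [outer, mem_filter, mem_univ, true_and] at hy hy'
      exact hy'.2 hy
    rw [hsplit, sum_union hdis]
    have hin : ∑ y ∈ univ.filter (fun y => y ∈ U),
        (tup B (U ⊔ Submodule.span (ZMod 2) {y}) l).card ≤
        2 ^ finrank (ZMod 2) U * ((2 ^ (finrank (ZMod 2) U + j)) ^ l * gg j) := by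
      rw [← card_filter_mem, ← smul_eq_mul, ← sum_const]
      refine sum_le_sum fun y hy => ?_
      simp only [mem_filter, mem_univ, true_and] at hy
      have : U ⊔ Submodule.span (ZMod 2) {y} = U := by
        rw [sup_eq_left, Submodule.span_singleton_le_iff_mem]
        exact hy
      rw [this]
      exact ih j U hU hd
    rcases Nat.eq_zero_or_pos j with rfl | hj
    · have hout : outer B U = ∅ := by
        rw [← card_eq_zero]
        have := card_outer hU hd
        simp only [mul_zero, pow_zero, mul_one] at this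
        omega
      rw [hout, sum_empty, add_zero]
      refine hin.trans (le_of_eq ?_)
      rw [add_zero, pow_succ]
      ring
    · obtain ⟨i, rfl⟩ : ∃ i, j = i + 1 := ⟨j - 1, by omega⟩
      have hout : ∑ y ∈ outer B U, (tup B (U ⊔ Submodule.span (ZMod 2) {y}) l).card ≤
          (outer B U).card * ((2 ^ (finrank (ZMod 2) U + (i + 1))) ^ l * gg i) := by
        rw [← smul_eq_mul, ← sum_const]
        refine sum_le_sum fun y hy => ?_
        simp only [outer, mem_filter, mem_univ, true_and] at hy
        obtain ⟨e, he, hg⟩ := Gap.ext hB hU hd hy.1 hy.2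
        obtain rfl : e = 2 * i := by omega
        have := ih i _ (ext_iso hB hU hy.1) hg
        rw [ext_finrank hy.2, add_assoc, add_comm 1 i] at this
        exact this
      refine (add_le_add hin hout).trans (le_of_eq ?_)
      have h3 := card_outer hU hd
      set N := (outer B U).card
      set u := 2 ^ finrank (ZMod 2) U
      set X := (2 ^ (finrank (ZMod 2) U + (i + 1))) ^ l
      have e2 : 2 ^ (2 * (i + 1)) = 2 ^ (i + 1) * 2 ^ (i + 1) := by
        rw [← pow_add]; congr 1; ring
      have e4 : (2 ^ (finrank (ZMod 2) U + (i + 1))) ^ (l + 1) = X * (u * 2 ^ (i + 1)) := by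
        have e5 : 2 ^ (finrank (ZMod 2) U + (i + 1)) = u * 2 ^ (i + 1) := pow_add _ _ _
        calc (2 ^ (finrank (ZMod 2) U + (i + 1))) ^ (l + 1)
            = X * 2 ^ (finrank (ZMod 2) U + (i + 1)) := pow_succ _ _
          _ = X * (u * 2 ^ (i + 1)) := by rw [e5]
      rw [e4, show gg (i + 1) = (2 ^ (i + 1) + 1) * gg i from rfl]
      rw [e2] at h3
      generalize 2 ^ (i + 1) = p at h3 ⊢
      generalize gg i = g
      zify at h3 ⊢
      have hN : (N : ℤ) = u * (p * p) - u := by linarith
      rw [hN]
      ring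

end Pool.Agent.Q253.TwoRank
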