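import Mathlib

/-!
Totally isotropic subspaces of alternating forms over the field with two elements: an averaging
argument (large isotropic parts of a family of vectors) and a count of isotropic tuples.
-/

open Finset Module

set_option autoImplicit false

namespace Pool.Agent.Q253.TwoRank

open Classical

variable {E : Type*} [AddCommGroup E] [Module (ZMod 2) E] [Fintype E]
variable (B : LinearMap.BilinForm (ZMod 2) E)

/-- totally isotropic and containing the radical -/
structure Iso (U : Submodule (ZMod 2) E) : Prop where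
  rad : B.orthogonal ⊤ ≤ U
  iso : U ≤ B.orthogonal U

variable {B}

set_option linter.unusedSectionVars false

theorem zo : ∀ c : ZMod 2, c = 0 ∨ c = 1 := by decide

theorem add_self' (x : E) : x + x = 0 := by
  have h : (2 : ZMod 2) • x = x + x := two_smul _ x
  rw [← h, show (2 : ZMod 2) = 0 from rfl, zero_smul]

theorem mem_sup_span {U : Submodule (ZMod 2) E} {y z : E} :
    z ∈ U ⊔ Submodule.span (ZMod 2) {y} ↔ z ∈ U ∨ z + y ∈ U := by
  rw [Submodule.mem_sup]
  constructor
  · rintro ⟨u, hu, w, hw, rfl⟩
    rw [Submodule.mem_span_singleton] at hw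
    obtain ⟨c, rfl⟩ := hw
    rcases zo c with rfl | rfl
    · left
      rw [zero_smul, add_zero]
      exact hu
    · right
      rw [one_smul, add_assoc, add_self', add_zero]
      exact hu
  · rintro (h | h)
    · exact ⟨z, h, 0, zero_mem _, by simp⟩
    · refine ⟨z + y, h, y, Submodule.mem_span_singleton_self y, ?_⟩
      rw [add_assoc, add_self', add_zero]

theorem mem_orth {U : Submodule (ZMod 2) E} {z : E} :
    z ∈ B.orthogonal U ↔ ∀ u ∈ U, B u z = 0 := Iff.rfl

theorem symm_of_alt (hB : B.IsAlt) (x y : E) : B x y = B y x := by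
  have h := LinearMap.IsAlt.neg hB x y
  rw [← h, ZMod.neg_eq_self_mod_two]

theorem dims (hB : B.IsAlt) {U : Submodule (ZMod 2) E} (hU : Iso B U) :
    finrank (ZMod 2) U + finrank (ZMod 2) (B.orthogonal U) =
      finrank (ZMod 2) E + finrank (ZMod 2) (B.orthogonal ⊤) := by
  have h := LinearMap.BilinForm.finrank_add_finrank_orthogonal hB.isRefl U
  rw [inf_eq_right.2 hU.rad] at h
  exact h

theorem orth_orth (hB : B.IsAlt) {U : Submodule (ZMod 2) E} (hU : Iso B U) :
    B.orthogonal (B.orthogonal U) = U := by
  have h1 := dims hB hU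
  have h2 := LinearMap.BilinForm.finrank_add_finrank_orthogonal hB.isRefl (B.orthogonal U)
  rw [inf_eq_right.2 (hU.rad.trans hU.iso)] at h2
  refine (Submodule.eq_of_le_of_finrank_le
    (LinearMap.BilinForm.le_orthogonal_orthogonal hB.isRefl) ?_).symm
  omega

theorem ext_iso (hB : B.IsAlt) {U : Submodule (ZMod 2) E} (hU : Iso B U) {y : E}
    (hy : y ∈ B.orthogonal U) : Iso B (U ⊔ Submodule.span (ZMod 2) {y}) := by
  refine ⟨hU.rad.trans le_sup_left, ?_⟩
  intro z hz
  rw [mem_orth]
  intro w hw
  rw [mem_sup_span] at hz hw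
  have key : ∀ a b : E, a ∈ U → b ∈ U → B (a + y) b = 0 ∧ B a (b + y) = 0 ∧
      B (a + y) (b + y) = 0 ∧ B a b = 0 := by
    intro a b ha hb
    have h1 : B a b = 0 := hU.iso hb a ha
    have h2 : B a y = 0 := hy a ha
    have h3 : B b y = 0 := hy b hb
    have h4 : B y b = 0 := by rw [symm_of_alt hB, h3]
    have h5 : B y y = 0 := hB y
    simp [h1, h2, h4, h5]
  have e : ∀ a : E, a + y + y = a := fun a => by rw [add_assoc, add_self', add_zero]
  rcases hz with hz | hz <;> rcases hw with hw | hw
  · exact (key w z hw hz).2.2.2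
  · have := (key (w + y) z hw hz).1
    rwa [e] at this
  · have := (key w (z + y) hw hz).2.1
    rwa [e] at this
  · have := (key (w + y) (z + y) hw hz).2.2.1
    rwa [e, e] at this

theorem card_pow (U : Submodule (ZMod 2) E) : Nat.card U = 2 ^ finrank (ZMod 2) U := by
  have h := Module.natCard_eq_pow_finrank (K := ZMod 2) (V := U)
  rw [h]
  simp

theorem ext_finrank {U : Submodule (ZMod 2) E} {y : E} (hy : y ∉ U) :
    finrank (ZMod 2) (U ⊔ Submodule.span (ZMod 2) {y} : Submodule (ZMod 2) E) =
      finrank (ZMod 2) U + 1 := by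
  have h := Submodule.finrank_sup_add_finrank_inf_eq U (Submodule.span (ZMod 2) {y})
  have hy0 : y ≠ 0 := fun h => hy (h ▸ zero_mem _)
  have h1 : U ⊓ Submodule.span (ZMod 2) {y} = ⊥ := by
    rw [eq_bot_iff]
    intro z hz
    rw [Submodule.mem_inf, Submodule.mem_span_singleton] at hz
    obtain ⟨h1, c, rfl⟩ := hz
    rcases zo c with rfl | rfl
    · simp
    · rw [one_smul] at h1
      exact absurd h1 hy
  rw [h1, finrank_bot, finrank_span_singleton hy0] at h
  omega

/-- `U` has codimension `d` in its orthogonal space -/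
def Gap (B : LinearMap.BilinForm (ZMod 2) E) (U : Submodule (ZMod 2) E) (d : ℕ) : Prop :=
  finrank (ZMod 2) (B.orthogonal U) = finrank (ZMod 2) U + d

theorem Gap.ext (hB : B.IsAlt) {U : Submodule (ZMod 2) E} (hU : Iso B U) {d : ℕ}
    (hd : Gap B U d) {y : E} (hy : y ∈ B.orthogonal U) (hyU : y ∉ U) :
    ∃ e, d = e + 2 ∧ Gap B (U ⊔ Submodule.span (ZMod 2) {y}) e := by
  have h1 := ext_finrank hyU
  have hI := ext_iso hB hU hy
  have h2 := dims hB hU
  have h3 := dims hB hI
  have h4 := Submodule.finrank_mono hI.iso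
  unfold Gap at hd ⊢
  refine ⟨d - 2, ?_, ?_⟩ <;> omega

/-- the elements of `U^⊥` outside `U` -/
noncomputable def outer (B : LinearMap.BilinForm (ZMod 2) E) (U : Submodule (ZMod 2) E) : Finset E :=
  univ.filter fun y => y ∈ B.orthogonal U ∧ y ∉ U

theorem card_filter_mem (U : Submodule (ZMod 2) E) :
    (univ.filter fun y => y ∈ U).card = 2 ^ finrank (ZMod 2) U := by
  rw [← card_pow, Nat.card_eq_fintype_card, Fintype.card_subtype]

theorem card_outer {U : Submodule (ZMod 2) E} (hU : Iso B U) {d : ℕ} (hd : Gap B U d) :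
    (outer B U).card + 2 ^ finrank (ZMod 2) U = 2 ^ finrank (ZMod 2) U * 2 ^ d := by
  have h1 : outer B U = (univ.filter fun y => y ∈ B.orthogonal U) \ (univ.filter fun y => y ∈ U) := by
    ext y
    simp [outer]
  have h2 : (univ.filter fun y => y ∈ U) ⊆ (univ.filter fun y => y ∈ B.orthogonal U) := by
    intro y hy
    simp only [mem_filter, mem_univ, true_and] at hy ⊢
    exact hU.iso hy
  have h3 := card_le_card h2
  rw [h1, card_sdiff_of_subset h2, card_filter_mem, card_filter_mem]
  rw [card_filter_mem, card_filter_mem] at h3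
  rw [Nat.sub_add_cancel h3, hd, pow_add]

/-- for `z` in `U^⊥` outside `U`, the number of `y` with `z ∈ U + y` -/
theorem card_same {U : Submodule (ZMod 2) E} (hU : Iso B U) {z : E} (hz : z ∈ outer B U) :
    ((outer B U).filter fun y => z ∈ U ⊔ Submodule.span (ZMod 2) {y}).card =
      2 ^ finrank (ZMod 2) U := by
  rw [← card_filter_mem]
  simp only [outer, mem_filter, mem_univ, true_and] at hz
  refine card_bij (fun y _ => z + y) ?_ ?_ ?_
  · intro y hy
    simp only [mem_filter, outer, mem_univ, true_and, mem_sup_span] at hy ⊢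
    rcases hy.2 with h | h
    · exact absurd h hz.2
    · exact h
  · intro a _ b _ h
    exact add_left_cancel h
  · intro u hu
    simp only [mem_filter, mem_univ, true_and] at hu
    refine ⟨z + u, ?_, ?_⟩
    · simp only [mem_filter, outer, mem_univ, true_and, mem_sup_span]
      refine ⟨⟨add_mem hz.1 (hU.iso hu), fun h => hz.2 ?_⟩, Or.inr ?_⟩
      · have := sub_mem h hu
        simpa using this
      · rw [← add_assoc, add_self', zero_add]
        exact hu
    · show z + (z + u) = u
      rw [← add_assoc, add_self', zero_add]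

/-- half of `U^⊥` is orthogonal to `z` -/
theorem card_half (hB : B.IsAlt) {U : Submodule (ZMod 2) E} (hU : Iso B U) {z : E}
    (hz : z ∈ outer B U) :
    2 * (univ.filter fun y => y ∈ B.orthogonal U ∧ B y z = 0).card =
      (univ.filter fun y => y ∈ B.orthogonal U).card := by
  simp only [outer, mem_filter, mem_univ, true_and] at hz
  have h0 : ∃ w ∈ B.orthogonal U, B w z = 1 := by
    by_contra hcon
    push Not at hcon
    apply hz.2
    rw [← orth_orth hB hU, mem_orth]
    intro w hw
    rcases zo (B w z) with h | h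
    · exact h
    · exact absurd h (hcon w hw)
  obtain ⟨w, hw, hwz⟩ := h0
  have h1 : (univ.filter fun y => y ∈ B.orthogonal U ∧ B y z = 0).card =
      (univ.filter fun y => y ∈ B.orthogonal U ∧ B y z = 1).card := by
    refine card_bij (fun y _ => y + w) ?_ ?_ ?_
    · intro y hy
      simp only [mem_filter, mem_univ, true_and] at hy ⊢
      refine ⟨add_mem hy.1 hw, ?_⟩
      rw [LinearMap.BilinForm.add_left, hy.2, hwz, zero_add]
    · intro a _ b _ h
      exact add_right_cancel h
    · intro y hy
      simp only [mem_filter, mem_univ, true_and] at hy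
      refine ⟨y + w, ?_, ?_⟩
      · simp only [mem_filter, mem_univ, true_and]
        refine ⟨add_mem hy.1 hw, ?_⟩
        rw [LinearMap.BilinForm.add_left, hy.2, hwz]
        rfl
      · show y + w + w = y
        rw [add_assoc, add_self', add_zero]
  have h2 : (univ.filter fun y => y ∈ B.orthogonal U) =
      (univ.filter fun y => y ∈ B.orthogonal U ∧ B y z = 0) ∪
      (univ.filter fun y => y ∈ B.orthogonal U ∧ B y z = 1) := by
    ext y
    simp only [mem_filter, mem_univ, true_and, mem_union]
    rcases zo (B y z) with h | h <;> simp [h]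
  rw [h2, card_union_of_disjoint, ← h1]
  · ring
  · rw [disjoint_left]
    intro y hy hy'
    simp only [mem_filter, mem_univ, true_and] at hy hy'
    rw [hy.2] at hy'
    exact absurd hy'.2 (by decide)

/-- for `z` in `U^⊥` outside `U`, the number of `y` with `z ∈ (U + y)^⊥` outside `U + y` -/
theorem card_next (hB : B.IsAlt) {U : Submodule (ZMod 2) E} (hU : Iso B U) {z : E}
    (hz : z ∈ outer B U) {d : ℕ} (hd : Gap B U (d + 1)) :
    ((outer B U).filter fun y => z ∈ outer B (U ⊔ Submodule.span (ZMod 2) {y})).card +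
      2 * 2 ^ finrank (ZMod 2) U = 2 ^ finrank (ZMod 2) U * 2 ^ d := by
  have h1 := card_half hB hU hz
  have h2 := card_same hU hz
  rw [card_filter_mem, hd, ← add_assoc, pow_succ] at h1
  have hz' := hz
  simp only [outer, mem_filter, mem_univ, true_and] at hz'
  -- the set of all y ∈ U^⊥ orthogonal to z is the disjoint union of three sets
  have h3 : (univ.filter fun y => y ∈ B.orthogonal U ∧ B y z = 0) =
      ((outer B U).filter fun y => z ∈ outer B (U ⊔ Submodule.span (ZMod 2) {y})) ∪
      (((outer B U).filter fun y => z ∈ U ⊔ Submodule.span (ZMod 2) {y}) ∪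
        (univ.filter fun y => y ∈ U)) := by
    ext y
    simp only [outer, mem_filter, mem_univ, true_and, mem_union]
    constructor
    · rintro ⟨hy, hyz⟩
      by_cases hyU : y ∈ U
      · exact Or.inr (Or.inr hyU)
      · by_cases hzy : z ∈ U ⊔ Submodule.span (ZMod 2) {y}
        · exact Or.inr (Or.inl ⟨⟨hy, hyU⟩, hzy⟩)
        · refine Or.inl ⟨⟨hy, hyU⟩, ?_, hzy⟩
          rw [mem_orth]
          intro w hw
          rw [mem_sup_span] at hw
          rcases hw with hw | hw
          · exact hz'.1 w hw
          · have := hz'.1 (w + y) hw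
            rw [LinearMap.BilinForm.add_left, hyz, add_zero] at this
            exact this
    · rintro (⟨⟨hy, _⟩, h, _⟩ | ⟨⟨hy, _⟩, h⟩ | hy)
      · refine ⟨hy, ?_⟩
        exact h y (Submodule.mem_sup_right (Submodule.mem_span_singleton_self y))
      · refine ⟨hy, ?_⟩
        have hI := ext_iso hB hU hy
        exact hI.iso h y (Submodule.mem_sup_right (Submodule.mem_span_singleton_self y))
      · exact ⟨hU.iso hy, hz'.1 y hy⟩
  rw [h3, card_union_of_disjoint, card_union_of_disjoint, h2, card_filter_mem] at h1
  · rw [pow_add] at h1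
    nlinarith [h1]
  · rw [disjoint_left]
    intro y hy hy'
    simp only [outer, mem_filter, mem_univ, true_and] at hy hy'
    exact hy.1.2 hy'
  · rw [disjoint_left]
    intro y hy hy'
    simp only [outer, mem_filter, mem_univ, true_and, mem_union] at hy hy'
    rcases hy' with h | h
    · exact hy.2.2 h.2
    · exact hy.1.2 h

end Pool.Agent.Q253.TwoRank
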