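import Pool.Agent.Q253.TwoRank.Avg

/-!
Upper bound: a symmetric matrix over the field with two elements is constant outside the diagonal
on a large set of indices.
-/

open Finset Module

set_option autoImplicit false
set_option linter.unusedSectionVars false
set_option linter.unusedVariables false

namespace Pool.Agent.Q253.TwoRank

open Classical

variable {V : Type*} [Fintype V]

theorem rank_add_le' (A C : Matrix V V (ZMod 2)) : (A + C).rank ≤ A.rank + C.rank := by
  unfold Matrix.rank
  have h : LinearMap.range (A + C).mulVecLin ≤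
      LinearMap.range A.mulVecLin ⊔ LinearMap.range C.mulVecLin := by
    rintro _ ⟨x, rfl⟩
    rw [Matrix.mulVecLin_add]
    exact Submodule.add_mem_sup ⟨x, rfl⟩ ⟨x, rfl⟩
  exact (Submodule.finrank_mono h).trans (Submodule.finrank_add_le_finrank_add_finrank _ _)

theorem brank_toBilin (M : Matrix V V (ZMod 2)) :
    brank (Matrix.toBilin' M) = M.rank := by
  have h1 : (Matrix.toBilin' M).orthogonal ⊤ = LinearMap.ker M.mulVecLin := by
    ext z
    rw [mem_orth, LinearMap.mem_ker]
    constructor
    · intro h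
      funext i
      have := h (Pi.single i 1) Submodule.mem_top
      rw [Matrix.toBilin'_apply'] at this
      simpa using this
    · intro h w _
      rw [Matrix.toBilin'_apply']
      rw [Matrix.mulVecLin_apply] at h
      rw [h, dotProduct_zero]
  unfold brank
  rw [h1, Matrix.rank]
  have := LinearMap.finrank_range_add_finrank_ker M.mulVecLin
  omega

/-- off-diagonal constant on a large subset of `S` -/
theorem const_part (M : Matrix V V (ZMod 2)) (hM : ∀ u v, M u v = M v u) (S : Finset V) :
    ∃ T ⊆ S, (∃ c : ZMod 2, ∀ u ∈ T, ∀ v ∈ T, u ≠ v → M u v = c) ∧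
      S.card ≤ 2 * (2 ^ ((M.rank + 1) / 2) + 1) * T.card := by
  -- the larger class
  obtain ⟨c, hc⟩ : ∃ c : ZMod 2, S.card ≤ 2 * (S.filter fun v => M v v = c).card := by
    by_contra hcon
    push Not at hcon
    have h0 := hcon 0
    have h1 := hcon 1
    have h2 : S = (S.filter fun v => M v v = 0) ∪ (S.filter fun v => M v v = 1) := by
      ext v
      simp only [mem_union, mem_filter]
      rcases zo (M v v) with h | h <;> simp [h]
    have h3 := card_union_le (S.filter fun v => M v v = 0) (S.filter fun v => M v v = 1)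
    rw [← h2] at h3
    omega
  set S' := S.filter fun v => M v v = c with hS'
  set d : V → ZMod 2 := fun v => M v v with hd
  set M' : Matrix V V (ZMod 2) := M + Matrix.vecMulVec d d with hM'
  have hrank : M'.rank ≤ M.rank + 1 :=
    (rank_add_le' _ _).trans (Nat.add_le_add_left (Matrix.rank_vecMulVec_le d d) _)
  have hfin : ∀ e c : ZMod 2, e + c * c = 0 → e = c := by decide
  have hsq : ∀ a : ZMod 2, a + a * a = 0 := by decide
  have halt : (Matrix.toBilin' M').IsAlt := by
    intro z
    rw [Matrix.toBilin'_apply]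
    have hsymm : ∀ u v, M' u v = M' v u := by
      intro u v
      simp only [hM', Matrix.add_apply, Matrix.vecMulVec_apply]
      rw [hM u v, mul_comm]
    have hdiag : ∀ u, M' u u = 0 := by
      intro u
      simp only [hM', Matrix.add_apply, Matrix.vecMulVec_apply, hd]
      exact hsq _
    rw [← sum_product']
    refine sum_involution (fun p _ => (p.2, p.1)) ?_ ?_ ?_ ?_
    · intro p _
      rw [hsymm p.2 p.1]
      have : z p.2 * M' p.1 p.2 * z p.1 = z p.1 * M' p.1 p.2 * z p.2 := by ring
      rw [this]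
      have h2 : ∀ a : ZMod 2, a + a = 0 := by decide
      exact h2 _
    · intro p _ hne heq
      apply hne
      have : p.2 = p.1 := congrArg Prod.fst heq
      rw [this, hdiag]
      simp
    · intro p _
      exact mem_product.2 ⟨mem_univ _, mem_univ _⟩
    · intro p _
      rfl
  obtain ⟨T, hT, hc'⟩ := large_part halt (V := S') fun v => Pi.single (v : V) (1 : ZMod 2)
  refine ⟨T.map (Function.Embedding.subtype _), ?_, ⟨c, ?_⟩, ?_⟩
  · intro v hv
    rw [mem_map] at hv
    obtain ⟨w, _, rfl⟩ := hv
    exact (mem_filter.1 w.2).1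
  · intro u hu v hv huv
    rw [mem_map] at hu hv
    obtain ⟨a, ha, rfl⟩ := hu
    obtain ⟨b, hb, rfl⟩ := hv
    have h := hT a ha b hb
    rw [Matrix.toBilin'_single] at h
    simp only [hM', Matrix.add_apply, Matrix.vecMulVec_apply, hd] at h
    have ha' : M a a = c := (mem_filter.1 a.2).2
    have hb' : M b b = c := (mem_filter.1 b.2).2
    rw [ha', hb'] at h
    show M a b = c
    exact hfin _ _ h
  · rw [card_map]
    rw [brank_toBilin, Fintype.card_coe] at hc'
    have h1 : 2 ^ (M'.rank / 2) ≤ 2 ^ ((M.rank + 1) / 2) :=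
      Nat.pow_le_pow_right (by norm_num) (by omega)
    calc S.card ≤ 2 * S'.card := hc
      _ ≤ 2 * ((2 ^ (M'.rank / 2) + 1) * T.card) := Nat.mul_le_mul_left _ hc'
      _ ≤ 2 * ((2 ^ ((M.rank + 1) / 2) + 1) * T.card) := by gcongr
      _ = 2 * (2 ^ ((M.rank + 1) / 2) + 1) * T.card := by ring

theorem const_all {s : ℕ} (M : Fin s → Matrix V V (ZMod 2)) (hM : ∀ i u v, M i u v = M i v u) :
    ∃ T : Finset V, (∀ i, ∃ c : ZMod 2, ∀ u ∈ T, ∀ v ∈ T, u ≠ v → M i u v = c) ∧
      Fintype.card V ≤ (∏ i, 2 * (2 ^ (((M i).rank + 1) / 2) + 1)) * T.card := by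
  induction s with
  | zero => exact ⟨univ, fun i => i.elim0, by simp⟩
  | succ s ih =>
    obtain ⟨S, hS, hc⟩ := ih (fun i => M i.castSucc) fun i => hM i.castSucc
    obtain ⟨T, hTS, ⟨c, hT⟩, hc'⟩ := const_part (M (Fin.last s)) (hM _) S
    refine ⟨T, ?_, ?_⟩
    · intro i
      refine Fin.lastCases ⟨c, hT⟩ (fun j => ?_) i
      obtain ⟨e, he⟩ := hS j
      exact ⟨e, fun u hu v hv => he u (hTS hu) v (hTS hv)⟩
    · rw [Fin.prod_univ_castSucc]
      calc Fintype.card V ≤ _ := hc
        _ ≤ (∏ i : Fin s, 2 * (2 ^ (((M i.castSucc).rank + 1) / 2) + 1)) *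
            (2 * (2 ^ (((M (Fin.last s)).rank + 1) / 2) + 1) * T.card) :=
          Nat.mul_le_mul_left _ hc'
        _ = _ := by ring

end Pool.Agent.Q253.TwoRank
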